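import Mathlib
import Pool.Agent.H665R2.PathFinal
import Pool.Agent.Helper292.ForceCH

/-!
# CH implies that no ordinal `α` with `ω₁^(ω+2) ≤ α < ω₂` satisfies `P(α)`
-/

set_option autoImplicit false

namespace Pool.Agent.Results.MP_931ca8_lc.BelowOmegaTwo

open Cardinal Ordinal

/-- Every graph on the ordinal `α` (realised as the well-ordered type `α.ToType` of order type
`α`) has an infinite path (an injective sequence of vertices, consecutive ones adjacent) or an
independent set of order type `τ`.  `P(α)` is `PathOrIndep α α`. -/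
def PathOrIndep (α τ : Ordinal.{0}) : Prop :=
  ∀ G : SimpleGraph α.ToType,
    (∃ v : ℕ → α.ToType, Function.Injective v ∧ ∀ n, G.Adj (v n) (v (n + 1))) ∨
    ∃ S : Set α.ToType, G.IsIndepSet S ∧ typeLT S = τ

/-- No hypothesis is assumed. (1) There is a notion of forcing all of whose conditions force that
`ω₁` is preserved and that the continuum hypothesis holds. (2) The continuum hypothesis implies
for all `α < ω₂` and `τ ≥ ω₁^(ω+2)` that `α` carries a graph without infinite path and without
independent set of order type `τ`; in particular (`τ = α`) `P(α)` fails for all `α` with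
`ω₁^(ω+2) ≤ α < ω₂`. -/
theorem result :
    (∃ (P : Type) (_ : Preorder P), Nonempty P ∧ ∀ p : P,
      p ∈ Pool.Agent.Helper292.ForceCH.OmegaOnePreserved P ∧
      p ∈ Pool.Agent.Helper292.ForceCH.CHHolds P) ∧
    (Cardinal.continuum.{0} = Cardinal.aleph 1 →
      ∀ α τ : Ordinal.{0}, α < ω_ 2 → ω_ 1 ^ (ω + 2) ≤ τ → ¬ PathOrIndep α τ) := by
  refine ⟨?_, ?_⟩
  · obtain ⟨P, hP, hne, h⟩ := Pool.Agent.Helper292.ForceCH.exists_forcing
    exact ⟨P, hP, hne, fun p => ⟨(h p).1, (h p).2.2⟩⟩
  · intro hCH α τ hα hτ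
    have h1 : α.card ≤ ℵ₁ := by
      rw [← Cardinal.ord_aleph, Cardinal.lt_ord] at hα
      have h2 : (ℵ_ 2 : Cardinal.{0}) = Order.succ ℵ₁ := by
        rw [Cardinal.succ_aleph, one_add_one_eq_two]
      rw [h2] at hα
      exact Order.lt_succ_iff.1 hα
    refine H665R2.PathFinal.ch_not_pathRel' hCH α τ h1 ?_
    rw [Cardinal.ord_aleph]
    exact hτ

end Pool.Agent.Results.MP_931ca8_lc.BelowOmegaTwo
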